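import Pool.Agent.Lib.ZFModel.Syntax
import Mathlib.Logic.Equiv.Nat

/-! Definability with parameters, closed under the logical operations by instance search. -/

namespace Pool.Agent.Lib.ZFModel

universe u
variable {M : Type u}

/-- Interleaving of an assignment and a sequence of parameters. -/
def weave (v c : ℕ → M) : ℕ → M := fun i => Sum.elim v c (Equiv.natSumNatEquivNat.symm i)

/-- Renaming given separately on variables and on parameters. -/
def rn (f g : ℕ → ℕ) : ℕ → ℕ := weave f g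

def vi (n : ℕ) : ℕ := Equiv.natSumNatEquivNat (.inl n)
def ci (n : ℕ) : ℕ := Equiv.natSumNatEquivNat (.inr n)

theorem weave_vi (v c : ℕ → M) (n : ℕ) : weave v c (vi n) = v n := by
  simp only [weave, vi, Equiv.symm_apply_apply, Sum.elim_inl]
theorem weave_ci (v c : ℕ → M) (n : ℕ) : weave v c (ci n) = c n := by
  simp only [weave, ci, Equiv.symm_apply_apply, Sum.elim_inr]

theorem comp_rn (w : ℕ → M) (f g : ℕ → ℕ) :
    (fun i => w (rn f g i)) = weave (fun n => w (f n)) (fun n => w (g n)) := by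
  funext i
  simp only [rn, weave]
  cases Equiv.natSumNatEquivNat.symm i <;> rfl

@[reducible] def tail (v : ℕ → M) : ℕ → M := fun i => v (i + 1)

/-- `Q` is definable with parameters. -/
class Dfn (E : M → M → Prop) (Q : (ℕ → M) → Prop) : Prop where
  out : ∃ (φ : Fml) (c : ℕ → M), ∀ v, Q v ↔ Sat E φ (weave v c)

/-- `t` is a variable or a parameter. -/
class Trm (t : (ℕ → M) → M) : Prop where
  out : (∃ i, ∀ v, t v = v i) ∨ ∃ a, ∀ v, t v = a

instance Trm.var (i : ℕ) : Trm (fun v : ℕ → M => v i) := ⟨Or.inl ⟨i, fun _ => rfl⟩⟩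
instance Trm.const (a : M) : Trm (fun _ : ℕ → M => a) := ⟨Or.inr ⟨a, fun _ => rfl⟩⟩
/-- `s` is an iterate of `tail`. -/
class Shift (s : (ℕ → M) → ℕ → M) : Prop where
  out : ∃ k, ∀ v i, s v i = v (i + k)

instance Shift.id : Shift (fun v : ℕ → M => v) := ⟨0, fun _ _ => rfl⟩
instance Shift.tail (s : (ℕ → M) → ℕ → M) [h : Shift s] : Shift (fun v : ℕ → M => tail (s v)) := by
  obtain ⟨k, hk⟩ := h.out
  exact ⟨1 + k, fun v i => (hk v (i + 1)).trans (by rw [Nat.add_assoc])⟩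

instance (priority := low) Trm.shift (t : (ℕ → M) → M) (s : (ℕ → M) → ℕ → M) [h : Trm t]
    [hs : Shift s] : Trm (fun v : ℕ → M => t (s v)) := by
  obtain ⟨k, hk⟩ := hs.out
  rcases h.out with ⟨i, hi⟩ | ⟨a, ha⟩
  · exact ⟨Or.inl ⟨i + k, fun v => (hi _).trans (hk v i)⟩⟩
  · exact ⟨Or.inr ⟨a, fun v => ha _⟩⟩

theorem Trm.two (s t : (ℕ → M) → M) [hs : Trm s] [ht : Trm t] [Nonempty M] :
    ∃ (i j : ℕ) (c : ℕ → M), ∀ v, s v = weave v c i ∧ t v = weave v c j := by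
  rcases hs.out with ⟨i, hi⟩ | ⟨a, ha⟩ <;> rcases ht.out with ⟨j, hj⟩ | ⟨b, hb⟩
  · exact ⟨vi i, vi j, fun _ => Classical.arbitrary M, fun v => by simp [weave_vi, hi, hj]⟩
  · exact ⟨vi i, ci 0, fun _ => b, fun v => by simp [weave_vi, weave_ci, hi, hb]⟩
  · exact ⟨ci 0, vi j, fun _ => a, fun v => by simp [weave_vi, weave_ci, ha, hj]⟩
  · exact ⟨ci 0, ci 1, cons a fun _ => b, fun v => by simp [weave_ci, ha, hb]⟩

variable {E : M → M → Prop}

theorem Dfn.congr {Q R : (ℕ → M) → Prop} (h : Dfn E Q) (hQ : ∀ v, R v ↔ Q v) : Dfn E R := by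
  obtain ⟨φ, c, h⟩ := h.out
  exact ⟨φ, c, fun v => (hQ v).trans (h v)⟩

instance Dfn.mem [Nonempty M] (s t : (ℕ → M) → M) [Trm s] [Trm t] :
    Dfn E (fun v => E (s v) (t v)) := by
  obtain ⟨i, j, c, h⟩ := Trm.two s t
  exact ⟨.mem i j, c, fun v => by rw [(h v).1, (h v).2]; rfl⟩

instance Dfn.eq [Nonempty M] (s t : (ℕ → M) → M) [Trm s] [Trm t] :
    Dfn E (fun v => s v = t v) := by
  obtain ⟨i, j, c, h⟩ := Trm.two s t
  exact ⟨.eq i j, c, fun v => by rw [(h v).1, (h v).2]; rfl⟩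

instance (priority := low) Dfn.imp (Q R : (ℕ → M) → Prop) [hQ : Dfn E Q] [hR : Dfn E R] :
    Dfn E (fun v => Q v → R v) := by
  obtain ⟨φ, c, h⟩ := hQ.out
  obtain ⟨ψ, d, h'⟩ := hR.out
  refine ⟨.imp (φ.rename (rn vi fun n => ci (vi n))) (ψ.rename (rn vi fun n => ci (ci n))),
    weave c d, fun v => ?_⟩
  simp only [Sat, sat_rename, comp_rn, weave_vi, weave_ci, h, h']

instance Dfn.not (Q : (ℕ → M) → Prop) [hQ : Dfn E Q] : Dfn E (fun v => ¬ Q v) := by
  obtain ⟨φ, c, h⟩ := hQ.out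
  exact ⟨φ.neg, c, fun v => by simp only [sat_neg, h]⟩

instance Dfn.and (Q R : (ℕ → M) → Prop) [Dfn E Q] [Dfn E R] : Dfn E (fun v => Q v ∧ R v) :=
  (inferInstance : Dfn E (fun v => ¬ (Q v → ¬ R v))).congr fun v => by tauto

instance Dfn.or (Q R : (ℕ → M) → Prop) [Dfn E Q] [Dfn E R] : Dfn E (fun v => Q v ∨ R v) :=
  (inferInstance : Dfn E (fun v => ¬ Q v → R v)).congr fun v => by tauto

instance Dfn.iff (Q R : (ℕ → M) → Prop) [Dfn E Q] [Dfn E R] : Dfn E (fun v => Q v ↔ R v) :=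
  (inferInstance : Dfn E (fun v => (Q v → R v) ∧ (R v → Q v))).congr fun _ => iff_iff_implies_and_implies

instance Dfn.all (Q : (ℕ → M) → M → Prop) [hQ : Dfn E (fun v => Q (tail v) (v 0))] :
    Dfn E (fun v => ∀ x, Q v x) := by
  obtain ⟨φ, c, h⟩ := hQ.out
  refine ⟨.all (φ.rename (rn (cons 0 fun n => vi n + 1) fun n => ci n + 1)), c, fun v => ?_⟩
  simp only [Sat, sat_rename, comp_rn, cons_succ, weave_ci]
  refine forall_congr' fun x => (h (cons x v)).trans ?_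
  have : (fun n => cons x (weave v c) (cons 0 (fun n => vi n + 1) n)) = cons x v := by
    funext n; cases n
    · rfl
    · exact weave_vi _ _ _
  rw [this]

instance Dfn.ex (Q : (ℕ → M) → M → Prop) [Dfn E (fun v => Q (tail v) (v 0))] :
    Dfn E (fun v => ∃ x, Q v x) :=
  (inferInstance : Dfn E (fun v => ¬ ∀ x, ¬ Q v x)).congr fun v => by simp

theorem Dfn.two (R : M → M → Prop) [h : Dfn E (fun v => R (v 0) (v 1))] :
    ∃ (φ : Fml) (c : ℕ → M), ∀ x y, R x y ↔ Sat E φ (cons x (cons y c)) := by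
  obtain ⟨φ, c, h⟩ := h.out
  refine ⟨φ.rename (rn (cons 0 fun _ => 1) fun n => n + 2), c, fun x y => ?_⟩
  rw [sat_rename, comp_rn]
  exact h fun n => cons x (cons y c) (cons 0 (fun _ => 1) n)

theorem IsZF.nonempty (zf : IsZF E) : Nonempty M := by
  obtain ⟨w, _⟩ := zf.infinity; exact ⟨w⟩

theorem IsZF.sep (zf : IsZF E) (a : M) (Q : M → Prop) [h : Dfn E (fun v => Q (v 0))] :
    ∃ b, ∀ x, E x b ↔ E x a ∧ Q x := by
  obtain ⟨φ, c, h⟩ := h.out
  obtain ⟨b, hb⟩ := zf.separation (φ.rename (rn (fun _ => 0) fun n => n + 1)) c a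
  refine ⟨b, fun x => (hb x).trans (and_congr_right fun _ => ?_)⟩
  rw [sat_rename, comp_rn]
  exact (h fun _ => x).symm

example [Nonempty M] (a b : M) : Dfn E (fun v => ∀ x, E x (v 0) → ∃ y, E y a ∧ (E x y ∨ y = b ∨ ∀ z, ¬ E z (v 1))) :=
  inferInstance

end Pool.Agent.Lib.ZFModel
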