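import Pool.Agent.Lib.ZFModel.Model
import Pool.Agent.Lib.ZFModel.Dfn
import Mathlib.Data.Finset.Lattice.Fold
import Mathlib.Data.Finset.Image
import Mathlib.Logic.Equiv.Finset
import Mathlib.Algebra.Group.Subgroup.Map
import Mathlib.Algebra.Group.End

/-! Cohen's first model. -/

namespace Pool.Agent.Lib.ZFModel
open Name

/-- Cohen conditions: finite sets of positive and negative requirements. -/
@[ext] structure Cond where
  pos : Finset (ℕ × ℕ)
  neg : Finset (ℕ × ℕ)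
  disj : ∀ x ∈ pos, x ∉ neg

namespace Cond

instance : Countable Cond :=
  Function.Injective.countable (f := fun p : Cond => (p.pos, p.neg)) fun _ _ h =>
    Cond.ext (congrArg Prod.fst h) (congrArg Prod.snd h)

instance : Preorder Cond where
  le q p := p.pos ⊆ q.pos ∧ p.neg ⊆ q.neg
  le_refl _ := ⟨le_rfl, le_rfl⟩
  le_trans _ _ _ h h' := ⟨h'.1.trans h.1, h'.2.trans h.2⟩

theorem le_def {p q : Cond} : q ≤ p ↔ p.pos ⊆ q.pos ∧ p.neg ⊆ q.neg := Iff.rfl

def top : Cond := ⟨∅, ∅, by simp⟩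
theorem le_top (p : Cond) : p ≤ top := ⟨Finset.empty_subset _, Finset.empty_subset _⟩

def mv (g : Equiv.Perm ℕ) (x : ℕ × ℕ) : ℕ × ℕ := (g x.1, x.2)

theorem mv_inj (g : Equiv.Perm ℕ) : Function.Injective (mv g) := by
  rintro ⟨a, b⟩ ⟨c, d⟩ h
  simp only [mv, Prod.mk.injEq, EmbeddingLike.apply_eq_iff_eq] at h
  exact Prod.ext h.1 h.2

instance : MulAction (Equiv.Perm ℕ) Cond where
  smul g p := ⟨p.pos.image (mv g), p.neg.image (mv g), by
    intro x hx hy
    obtain ⟨a, ha, rfl⟩ := Finset.mem_image.1 hx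
    obtain ⟨b, hb, h⟩ := Finset.mem_image.1 hy
    exact p.disj a ha (mv_inj g h ▸ hb)⟩
  one_smul p := Cond.ext (Finset.image_id' (s := p.pos)) (Finset.image_id' (s := p.neg))
  mul_smul g h p := Cond.ext (Finset.image_image (s := p.pos) (f := mv h) (g := mv g)).symm
    (Finset.image_image (s := p.neg) (f := mv h) (g := mv g)).symm

theorem smul_pos (g : Equiv.Perm ℕ) (p : Cond) : (g • p).pos = p.pos.image (mv g) := rfl
theorem smul_neg (g : Equiv.Perm ℕ) (p : Cond) : (g • p).neg = p.neg.image (mv g) := rfl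

theorem smul_top (g : Equiv.Perm ℕ) : g • top = top := Cond.ext rfl rfl

def sing (i n : ℕ) : Cond := ⟨{(i, n)}, ∅, by simp⟩

theorem smul_sing (g : Equiv.Perm ℕ) (i n : ℕ) : g • sing i n = sing (g i) n :=
  Cond.ext (Finset.image_singleton _ _) rfl

instance : SymSys Cond (Equiv.Perm ℕ) where
  mono g _ _ h := ⟨Finset.image_subset_image h.1, Finset.image_subset_image h.2⟩
  F H := ∃ e : Finset ℕ, ∀ g : Equiv.Perm ℕ, (∀ i ∈ e, g i = i) → g ∈ H
  top_mem := ⟨∅, fun _ _ => trivial⟩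
  inf_mem := by
    rintro H K ⟨e, he⟩ ⟨e', he'⟩
    refine ⟨H ⊓ K, ⟨e ∪ e', fun g hg => ⟨he g fun i hi => hg i ?_, he' g fun i hi => hg i ?_⟩⟩,
      inf_le_left, inf_le_right⟩
    · exact Finset.mem_union_left _ hi
    · exact Finset.mem_union_right _ hi
  conj_mem := by
    rintro H g ⟨e, he⟩
    refine ⟨H.comap (MulAut.conj g⁻¹).toMonoidHom, ⟨e.image g, fun k hk => ?_⟩, fun k hk => ?_⟩
    · refine he _ fun i hi => ?_
      have := hk (g i) (Finset.mem_image_of_mem _ hi)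
      simp [this]
    · simpa using hk

end Cond

open Cond

abbrev Pm : Type := Equiv.Perm ℕ

def natName (n : ℕ) : Name Cond := Name.mk (Fin n) (fun i => natName i) (fun _ => top)
decreasing_by exact i.2

theorem natName_eq (n : ℕ) :
    natName n = Name.mk (Fin n) (fun i => natName i) (fun _ => top) := by rw [natName]

theorem act_natName (g : Pm) (n : ℕ) : act g (natName n) = natName n := by
  induction n using Nat.strong_induction_on with
  | _ n ih =>
    rw [natName_eq]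
    simp only [act, smul_top]
    congr 1
    funext i; exact ih i i.2

theorem sym_of_fixed {x : Name Cond} (e : Finset ℕ)
    (h : ∀ g : Pm, (∀ i ∈ e, g i = i) → ∀ p, EqF (act g x) x p) : Sym Pm x := by
  refine ⟨⟨⟨⟨{g | ∀ i ∈ e, g i = i}, ?_⟩, ?_⟩, ?_⟩, ⟨e, fun g hg => hg⟩, h⟩
  · intro a b ha hb i hi
    rw [Equiv.Perm.mul_apply, hb i hi, ha i hi]
  · intro i _; rfl
  · intro a ha i hi
    rw [Equiv.Perm.inv_eq_iff_eq]; exact (ha i hi).symm

theorem natName_hs (n : ℕ) : HS Pm (natName n) := by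
  induction n using Nat.strong_induction_on with
  | _ n ih =>
    have h : Sym Pm (natName n) :=
      sym_of_fixed ∅ fun g _ p => by rw [act_natName]; exact EqF.refl _ _
    rw [natName_eq] at h ⊢
    exact ⟨h, fun i => ih i i.2⟩

def omegaName : Name Cond := Name.mk ℕ natName fun _ => top

theorem omegaName_hs : HS Pm omegaName :=
  ⟨sym_of_fixed ∅ fun g _ p => by
    simp only [act, act_natName, smul_top]; exact EqF.refl _ _, natName_hs⟩

def dName (i : ℕ) : Name Cond := Name.mk ℕ natName fun n => sing i n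

theorem act_dName (g : Pm) (i : ℕ) : act g (dName i) = dName (g i) := by
  simp only [dName, act, act_natName, smul_sing]

theorem dName_hs (i : ℕ) : HS Pm (dName i) :=
  ⟨sym_of_fixed {i} fun g hg p => by
    have := act_dName g i
    rw [hg i (Finset.mem_singleton_self i)] at this
    change EqF (act g (dName i)) (dName i) p
    rw [this]; exact EqF.refl _ _, natName_hs⟩

def setName (s : Set ℕ) : Name Cond := Name.mk s (fun i => dName i) fun _ => top

theorem act_setName (g : Pm) (s t : Set ℕ) (h : ∀ j, j ∈ t ↔ ∃ i ∈ s, g i = j) (p : Cond) :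
    EqF (act g (setName s)) (setName t) p := by
  constructor
  · intro i q _ _
    refine ⟨q, le_rfl, ⟨g i, (h _).2 ⟨i, i.2, rfl⟩⟩, Cond.le_top _, ?_⟩
    beta_reduce
    rw [act_dName]; exact EqF.refl _ _
  · intro j q _ hq
    obtain ⟨i, hi, hj⟩ := (h _).1 j.2
    refine ⟨q, le_rfl, ⟨i, hi⟩, Cond.le_top _, ?_⟩
    beta_reduce
    rw [act_dName, hj]; exact EqF.refl _ _

theorem univName_hs : HS Pm (setName Set.univ) :=
  ⟨sym_of_fixed ∅ fun g _ p => act_setName g _ _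
    (fun j => ⟨fun _ => ⟨g⁻¹ j, Set.mem_univ _, by simp⟩, fun _ => Set.mem_univ _⟩) p, fun _ => dName_hs _⟩

theorem finName_hs (s : Finset ℕ) : HS Pm (setName s) :=
  ⟨sym_of_fixed s fun g hg p => act_setName g _ _
    (fun j => ⟨fun h => ⟨j, h, hg j h⟩, fun ⟨i, hi, h⟩ => h ▸ (hg i hi).symm ▸ hi⟩) p,
    fun _ => dName_hs _⟩

theorem exists_perm (e : Finset ℕ) (N : ℕ) (he : ∀ i ∈ e, i < N) :
    ∃ π : Pm, (∀ i ∈ e, π i = i) ∧ ∀ i < N, i ∉ e → N ≤ π i := by
  let f : ℕ → ℕ := fun i => if i < N ∧ i ∉ e then i + N else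
    if N ≤ i ∧ i < N + N ∧ i - N ∉ e then i - N else i
  have hf : Function.Involutive f := by
    intro i
    by_cases h1 : i < N ∧ i ∉ e
    · have : f i = i + N := if_pos h1
      rw [this]
      simp only [f]
      rw [if_neg (by omega), if_pos ⟨by omega, by omega, by simpa using h1.2⟩]
      omega
    · by_cases h2 : N ≤ i ∧ i < N + N ∧ i - N ∉ e
      · have : f i = i - N := by simp only [f]; rw [if_neg h1, if_pos h2]
        rw [this]
        simp only [f]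
        rw [if_pos ⟨by omega, h2.2.2⟩]
        omega
      · have : f i = i := by simp only [f]; rw [if_neg h1, if_neg h2]
        rw [this, this]
  refine ⟨hf.toPerm f, fun i hi => ?_, fun i hi hie => ?_⟩
  · change f i = i
    have := he i hi
    simp only [f]
    rw [if_neg (fun h => h.2 hi), if_neg (by omega)]
  · change N ≤ f i
    have : f i = i + N := if_pos ⟨hi, hie⟩
    omega

theorem exists_bound (s : Finset ℕ) : ∃ N, ∀ i ∈ s, i < N :=
  ⟨s.sup id + 1, fun _ hi => Nat.lt_succ_of_le (Finset.le_sup (f := id) hi)⟩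

theorem dense_indep (s t : Finset ℕ) (p : Cond) : ∃ q, q ≤ p ∧
    (Disjoint s t → ∃ r, (∀ i ∈ s, (i, r) ∈ q.pos) ∧ ∀ i ∈ t, (i, r) ∈ q.neg) := by
  by_cases h : Disjoint s t
  · obtain ⟨N, hN⟩ := exists_bound ((p.pos ∪ p.neg).image Prod.snd)
    have h1 : ∀ x ∈ p.pos, x.2 < N := fun x hx =>
      hN _ (Finset.mem_image_of_mem _ (Finset.mem_union_left _ hx))
    have h2 : ∀ x ∈ p.neg, x.2 < N := fun x hx =>
      hN _ (Finset.mem_image_of_mem _ (Finset.mem_union_right _ hx))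
    refine ⟨⟨p.pos ∪ s.image (·, N), p.neg ∪ t.image (·, N), ?_⟩,
      ⟨Finset.subset_union_left, Finset.subset_union_left⟩, fun _ => ⟨N, ?_, ?_⟩⟩
    · intro x hx hy
      simp only [Finset.mem_union, Finset.mem_image] at hx hy
      rcases hx with hx | ⟨i, hi, rfl⟩ <;> rcases hy with hy | ⟨j, hj, hy⟩
      · exact p.disj x hx hy
      · subst hy; exact lt_irrefl _ (h1 _ hx)
      · exact lt_irrefl _ (h2 _ hy)
      · cases hy; exact Finset.disjoint_left.1 h hi hj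
    · intro i hi; exact Finset.mem_union_right _ (Finset.mem_image_of_mem _ hi)
    · intro i hi; exact Finset.mem_union_right _ (Finset.mem_image_of_mem _ hi)
  · exact ⟨p, le_rfl, fun h' => absurd h' h⟩

theorem dense_sep (n m : ℕ) (p : Cond) : ∃ q, q ≤ p ∧
    (n ≠ m → ∃ i, (i, n) ∈ q.pos ∧ (i, m) ∈ q.neg) := by
  by_cases h : n ≠ m
  · obtain ⟨N, hN⟩ := exists_bound ((p.pos ∪ p.neg).image Prod.fst)
    have h1 : ∀ x ∈ p.pos, x.1 < N := fun x hx =>
      hN _ (Finset.mem_image_of_mem _ (Finset.mem_union_left _ hx))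
    have h2 : ∀ x ∈ p.neg, x.1 < N := fun x hx =>
      hN _ (Finset.mem_image_of_mem _ (Finset.mem_union_right _ hx))
    refine ⟨⟨insert (N, n) p.pos, insert (N, m) p.neg, ?_⟩,
      ⟨Finset.subset_insert _ _, Finset.subset_insert _ _⟩, fun _ => ⟨N, ?_, ?_⟩⟩
    · intro x hx hy
      simp only [Finset.mem_insert] at hx hy
      rcases hx with rfl | hx <;> rcases hy with hy | hy
      · cases hy; exact h rfl
      · exact lt_irrefl _ (h2 _ hy)
      · subst hy; exact lt_irrefl _ (h1 _ hx)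
      · exact p.disj x hx hy
    · exact Finset.mem_insert_self _ _
    · exact Finset.mem_insert_self _ _
  · exact ⟨p, le_rfl, fun h' => absurd h' h⟩

theorem dense_sym (p : Cond) (e s T : Finset ℕ) (p' : Cond) : ∃ q, q ≤ p' ∧
    ((∀ r, r ≤ q → ¬ r ≤ p) ∨
      ∃ π : Pm, (∀ i ∈ e, π i = i) ∧ (∀ i ∈ s, π i ∈ T → π i ∈ e) ∧ q ≤ π • p) := by
  by_cases h : ∃ q, q ≤ p' ∧ q ≤ p
  · obtain ⟨q, hq, hqp⟩ := h
    obtain ⟨N, hN⟩ := exists_bound (e ∪ s ∪ T ∪ (q.pos ∪ q.neg).image Prod.fst)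
    simp only [Finset.mem_union, Finset.mem_image] at hN
    obtain ⟨π, h1, h2⟩ := exists_perm e N fun i hi => hN i (by simp [hi])
    have h3 : ∀ x ∈ q.pos, x.1 < N := fun x hx => hN _ (Or.inr ⟨x, Or.inl hx, rfl⟩)
    have h4 : ∀ x ∈ q.neg, x.1 < N := fun x hx => hN _ (Or.inr ⟨x, Or.inr hx, rfl⟩)
    refine ⟨⟨q.pos ∪ (π • p).pos, q.neg ∪ (π • p).neg, ?_⟩,
      ⟨hq.1.trans Finset.subset_union_left, hq.2.trans Finset.subset_union_left⟩,
      Or.inr ⟨π, h1, ?_, Finset.subset_union_right, Finset.subset_union_right⟩⟩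
    · intro x hx hy
      simp only [Finset.mem_union] at hx hy
      rcases hx with hx | hx <;> rcases hy with hy | hy
      · exact q.disj x hx hy
      · obtain ⟨y, hy', rfl⟩ := Finset.mem_image.1 hy
        by_cases hye : y.1 ∈ e
        · have : mv π y = y := Prod.ext (h1 _ hye) rfl
          exact q.disj y (this ▸ hx) (hqp.2 hy')
        · exact absurd (h3 _ hx) (not_lt.2 (h2 _ (h4 _ (hqp.2 hy')) hye))
      · obtain ⟨y, hy', rfl⟩ := Finset.mem_image.1 hx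
        by_cases hye : y.1 ∈ e
        · have : mv π y = y := Prod.ext (h1 _ hye) rfl
          exact q.disj y (hqp.1 hy') (this ▸ hy)
        · exact absurd (h4 _ hy) (not_lt.2 (h2 _ (h3 _ (hqp.1 hy')) hye))
      · exact (π • p).disj x hx hy
    · intro i hi hT
      by_cases hie : i ∈ e
      · rw [h1 i hie]; exact hie
      · exact absurd (hN _ (by simp [hT])) (not_lt.2 (h2 i (hN i (by simp [hi])) hie))
  · exact ⟨p', le_rfl, Or.inl fun r hr hrp => h ⟨r, hr, hrp⟩⟩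

/-- The facts about Cohen's first model that are used later. -/
structure CohenData {M : Type 1} (E : M → M → Prop) where
  nat : ℕ → M
  w : M
  d : ℕ → M
  D : M
  g : ℕ → ℕ → Prop
  mem_nat : ∀ x n, E x (nat n) ↔ ∃ m < n, x = nat m
  mem_w : ∀ x, E x w ↔ ∃ n, x = nat n
  mem_d : ∀ x i, E x (d i) ↔ ∃ n, g i n ∧ x = nat n
  mem_D : ∀ x, E x D ↔ ∃ i, x = d i
  indep : ∀ (s : Finset ℕ) (σ : ℕ → Prop), ∃ r, ∀ i ∈ s, (g i r ↔ σ i)
  sep : ∀ n m, n ≠ m → ∃ i, g i n ∧ ¬ g i m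
  sym : ∀ (R : M → M → Prop) [Dfn E fun v => R (v 0) (v 1)], ∃ e : Finset ℕ,
    ∀ (s T : Finset ℕ) (n : ℕ) (F : M), (∀ x, E x F ↔ ∃ i ∈ s, x = d i) → R F (nat n) →
      ∃ (s' : Finset ℕ) (F' : M), (∀ x, E x F' ↔ ∃ i ∈ s', x = d i) ∧
        (∀ i ∈ s', i ∈ T → i ∈ e) ∧ R F' (nat n)

theorem E_mk (γ : Gen (P := Cond) Pm) {ι : Type} {A : ι → Name Cond} {c : ι → Cond}
    (h : Name.mk ι A c ∈ γ.N) (hA : ∀ j, A j ∈ γ.N) (a : γ.M) :
    γ.E a (γ.cl ⟨_, h⟩) ↔ ∃ j, γ.G (c j) ∧ a = γ.cl ⟨A j, hA j⟩ := by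
  rw [γ.E_cl_child]
  exact ⟨fun ⟨j, _, h1, h2⟩ => ⟨j, h1, h2⟩, fun ⟨j, h1, h2⟩ => ⟨j, hA j, h1, h2⟩⟩

theorem exists_cohen : ∃ (M : Type 1) (E : M → M → Prop), IsZF E ∧ Nonempty (CohenData E) := by
  classical
  let base : (ℕ ⊕ ℕ) ⊕ (Finset ℕ ⊕ Bool) → Name Cond := fun k => match k with
    | .inl (.inl n) => natName n
    | .inl (.inr i) => dName i
    | .inr (.inl s) => setName s
    | .inr (.inr true) => omegaName
    | .inr (.inr false) => setName Set.univ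
  have hb : ∀ k, HS Pm (base k) := by
    rintro ((n | i) | s | _ | _)
    · exact natName_hs n
    · exact dName_hs i
    · exact finName_hs s
    · exact univName_hs
    · exact omegaName_hs
  let D : (Finset ℕ × Finset ℕ) ⊕ (ℕ × ℕ) ⊕ (Cond × Finset ℕ × Finset ℕ × Finset ℕ) →
      Cond → Prop := fun k q => match k with
    | .inl (s, t) => Disjoint s t → ∃ r, (∀ i ∈ s, (i, r) ∈ q.pos) ∧ ∀ i ∈ t, (i, r) ∈ q.neg
    | .inr (.inl (n, m)) => n ≠ m → ∃ i, (i, n) ∈ q.pos ∧ (i, m) ∈ q.neg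
    | .inr (.inr (p, e, s, T)) => (∀ r, r ≤ q → ¬ r ≤ p) ∨
      ∃ π : Pm, (∀ i ∈ e, π i = i) ∧ (∀ i ∈ s, π i ∈ T → π i ∈ e) ∧ q ≤ π • p
  have hD : ∀ k p, ∃ q, q ≤ p ∧ D k q := by
    rintro (⟨s, t⟩ | ⟨n, m⟩ | ⟨p, e, s, T⟩) p'
    · exact dense_indep s t p'
    · exact dense_sep n m p'
    · exact dense_sym p e s T p'
  obtain ⟨γ, hbase, hG⟩ := exists_gen Pm top base hb D hD
  have hn : ∀ n, natName n ∈ γ.N := fun n => hbase (.inl (.inl n))
  have hd : ∀ i, dName i ∈ γ.N := fun i => hbase (.inl (.inr i))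
  have hF : ∀ s : Finset ℕ, setName s ∈ γ.N := fun s => hbase (.inr (.inl s))
  have hw : omegaName ∈ γ.N := hbase (.inr (.inr true))
  have hU : setName Set.univ ∈ γ.N := hbase (.inr (.inr false))
  have htop : γ.G top := by obtain ⟨p, hp⟩ := γ.ne; exact γ.up _ _ hp (Cond.le_top p)
  let nat : ℕ → γ.M := fun n => γ.cl ⟨_, hn n⟩
  let d : ℕ → γ.M := fun i => γ.cl ⟨_, hd i⟩
  have mem_nat : ∀ x n, γ.E x (nat n) ↔ ∃ m < n, x = nat m := by
    intro x n
    have h1 : Name.mk (Fin n) (fun i => natName i) (fun _ => top) ∈ γ.N := natName_eq n ▸ hn n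
    have h2 : nat n = γ.cl ⟨_, h1⟩ := congrArg γ.cl (Subtype.ext (natName_eq n))
    rw [h2, E_mk γ h1 fun j => hn j]
    exact ⟨fun ⟨j, _, h⟩ => ⟨j, j.2, h⟩, fun ⟨m, hm, h⟩ => ⟨⟨m, hm⟩, htop, h⟩⟩
  have mem_w : ∀ x, γ.E x (γ.cl ⟨_, hw⟩) ↔ ∃ n, x = nat n := by
    intro x
    refine (E_mk γ hw hn x).trans ?_
    exact ⟨fun ⟨j, _, h⟩ => ⟨j, h⟩, fun ⟨m, h⟩ => ⟨m, htop, h⟩⟩
  have mem_F : ∀ (s : Set ℕ) (h : setName s ∈ γ.N) x,
      γ.E x (γ.cl ⟨_, h⟩) ↔ ∃ i ∈ s, x = d i := by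
    intro s h x
    refine (E_mk γ h (fun j => hd j) x).trans ?_
    exact ⟨fun ⟨j, _, h⟩ => ⟨j, j.2, h⟩, fun ⟨m, hm, h⟩ => ⟨⟨m, hm⟩, htop, h⟩⟩
  have hpos : ∀ q i n, γ.G q → (i, n) ∈ q.pos → γ.G (sing i n) := fun q i n hq h =>
    γ.up _ _ hq ⟨Finset.singleton_subset_iff.2 h, Finset.empty_subset _⟩
  have hneg : ∀ q i n, γ.G q → (i, n) ∈ q.neg → ¬ γ.G (sing i n) := by
    intro q i n hq h h'
    obtain ⟨r, _, h1, h2⟩ := γ.dir _ _ hq h'
    exact r.disj _ (h2.1 (Finset.mem_singleton_self _)) (h1.2 h)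
  have zf : IsZF γ.E := by
    refine γ.isZF ⟨γ.cl ⟨_, hw⟩, ⟨nat 0, (mem_w _).2 ⟨0, rfl⟩, fun x hx => ?_⟩, fun x hx => ?_⟩
    · obtain ⟨m, hm, _⟩ := (mem_nat _ _).1 hx
      omega
    · obtain ⟨n, rfl⟩ := (mem_w _).1 hx
      refine ⟨nat (n + 1), (mem_w _).2 ⟨_, rfl⟩, fun z => ?_⟩
      rw [mem_nat, mem_nat]
      constructor
      · rintro ⟨m, hm, rfl⟩
        rcases Nat.lt_succ_iff_lt_or_eq.1 hm with h | rfl
        · exact Or.inl ⟨m, h, rfl⟩
        · exact Or.inr rfl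
      · rintro (⟨m, hm, rfl⟩ | rfl)
        · exact ⟨m, by omega, rfl⟩
        · exact ⟨n, by omega, rfl⟩
  refine ⟨γ.M, γ.E, zf, ⟨⟨nat, γ.cl ⟨_, hw⟩, d, γ.cl ⟨_, hU⟩, fun i n => γ.G (sing i n),
    mem_nat, mem_w, fun x i => E_mk γ (hd i) hn x, fun x => ?_, ?_, ?_, ?_⟩⟩⟩
  · rw [mem_F]; simp
  · intro s σ
    obtain ⟨q, hq, h⟩ := hG (.inl (s.filter σ, s.filter fun i => ¬ σ i))
    obtain ⟨r, h1, h2⟩ := h (Finset.disjoint_filter_filter_not _ _ _)
    refine ⟨r, fun i hi => ⟨fun h3 => by_contra fun h4 => ?_, fun h3 => ?_⟩⟩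
    · exact hneg q i r hq (h2 i (Finset.mem_filter.2 ⟨hi, h4⟩)) h3
    · exact hpos q i r hq (h1 i (Finset.mem_filter.2 ⟨hi, h3⟩))
  · intro n m hnm
    obtain ⟨q, hq, h⟩ := hG (.inr (.inl (n, m)))
    obtain ⟨i, h1, h2⟩ := h hnm
    exact ⟨i, hpos q i n hq h1, hneg q i m hq h2⟩
  · intro R _
    obtain ⟨φ, c, hφ⟩ := Dfn.two (E := γ.E) R
    choose c' hc' using fun i => γ.cl_surj (c i)
    obtain ⟨H, ⟨e, he⟩, hH⟩ := common_support (Γ := Pm) (v := fun i => (c' i).1) φ.bd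
      fun i _ => γ.hs _ (c' i).2
    have key : ∀ (s : Finset ℕ) n, R (γ.cl ⟨_, hF s⟩) (nat n) ↔
        ∃ p, γ.G p ∧ Forces Pm φ p (cons (setName s) (cons (natName n) fun i => (c' i).1)) := by
      intro s n
      have := γ.truth φ (cons ⟨_, hF s⟩ (cons ⟨_, hn n⟩ c'))
      rw [comp_cons γ.cl, comp_cons γ.cl, comp_cons Subtype.val, comp_cons Subtype.val] at this
      rw [hφ, ← this]
      simp only [hc', nat]
    refine ⟨e, fun s T n F hFs hR => ?_⟩
    have hFe : F = γ.cl ⟨_, hF s⟩ := zf.extensionality _ _ fun x => by rw [hFs, mem_F]; rfl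
    subst hFe
    obtain ⟨p, hp, h1⟩ := (key s n).1 hR
    obtain ⟨q, hq, h2 | ⟨π, h2, h3, h4⟩⟩ := hG (.inr (.inr (p, e, s, T)))
    · obtain ⟨r, _, h3, h4⟩ := γ.dir _ _ hq hp
      exact absurd h4 (h2 r h3)
    · refine ⟨s.image π, γ.cl ⟨_, hF _⟩, mem_F _ _, ?_, (key _ n).2 ⟨q, hq, ?_⟩⟩
      · intro j hj hT
        obtain ⟨i, hi, rfl⟩ := Finset.mem_image.1 hj
        exact h3 i hi hT
      · have h5 := (h1.act π).mono h4
        rw [comp_cons (act π), comp_cons (act π), act_natName] at h5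
        refine Forces.congr ?_ h5
        refine cons_agree (R := fun a b => EqF a b q) (act_setName π _ _ (fun j => Finset.mem_image) q) ?_
        refine cons_agree (R := fun a b => EqF a b q) (EqF.refl _ _) fun i hi => ?_
        exact hH π (he π h2) i (by omega) q

end Pool.Agent.Lib.ZFModel
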