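import Mathlib.Logic.ExistsUnique
import Mathlib.Data.Nat.Notation

/-! First-order formulas of the language of set theory, their truth in a structure `(M, E)`
(`E x y` is read: `x` is an element of `y`), and the class of models of ZF. -/

namespace Pool.Agent.Lib.ZFModel

universe u

/-- Formulas of the first-order language with equality and one binary relation symbol
(membership).  Variables are de Bruijn indices: `all φ` binds the variable `0` of `φ`. -/
inductive Fml : Type
  | mem (i j : ℕ) : Fml
  | eq (i j : ℕ) : Fml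
  | fal : Fml
  | imp (φ ψ : Fml) : Fml
  | all (φ : Fml) : Fml

/-- The assignment sending `0` to `x` and `n + 1` to `v n`. -/
def cons {α : Type u} (x : α) (v : ℕ → α) : ℕ → α
  | 0 => x
  | n + 1 => v n

/-- Tarski truth of a formula in the structure `(M, E)` under an assignment `v`. -/
def Sat {M : Type u} (E : M → M → Prop) : Fml → (ℕ → M) → Prop
  | .mem i j, v => E (v i) (v j)
  | .eq i j, v => v i = v j
  | .fal, _ => False
  | .imp φ ψ, v => Sat E φ v → Sat E ψ v
  | .all φ, v => ∀ x : M, Sat E φ (cons x v)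

/-- `(M, E)` is a model of ZF: extensionality, foundation, pairing, union, power set, infinity,
and the schemes of separation and replacement for all first-order formulas with parameters. -/
structure IsZF {M : Type u} (E : M → M → Prop) : Prop where
  extensionality : ∀ a b : M, (∀ x, E x a ↔ E x b) → a = b
  foundation : ∀ a : M, (∃ x, E x a) → ∃ x, E x a ∧ ∀ y, E y x → ¬ E y a
  pairing : ∀ a b : M, ∃ c, ∀ x, E x c ↔ x = a ∨ x = b
  union : ∀ a : M, ∃ c, ∀ x, E x c ↔ ∃ y, E y a ∧ E x y
  powerset : ∀ a : M, ∃ c, ∀ x, E x c ↔ ∀ y, E y x → E y a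
  infinity : ∃ w : M, (∃ e, E e w ∧ ∀ x, ¬ E x e) ∧
    ∀ x, E x w → ∃ y, E y w ∧ ∀ z, E z y ↔ E z x ∨ z = x
  separation : ∀ (φ : Fml) (v : ℕ → M) (a : M),
    ∃ b, ∀ x, E x b ↔ E x a ∧ Sat E φ (cons x v)
  replacement : ∀ (φ : Fml) (v : ℕ → M) (a : M),
    (∀ x, E x a → ∃! y, Sat E φ (cons y (cons x v))) →
      ∃ b, ∀ y, E y b ↔ ∃ x, E x a ∧ Sat E φ (cons y (cons x v))

end Pool.Agent.Lib.ZFModel
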