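import Pool.Agent.Lib.ZFModel.Defs

/-! Models of ZFC. -/

namespace Pool.Agent.Lib.ZFModel

universe u

/-- `(M, E)` is a model of ZFC: a model of ZF in which every set of pairwise disjoint nonempty sets
has a transversal. -/
structure IsZFC {M : Type u} (E : M → M → Prop) : Prop where
  zf : IsZF E
  choice : ∀ a : M, (∀ y, E y a → ∃ z, E z y) →
    (∀ y y' z, E y a → E y' a → E z y → E z y' → y = y') →
    ∃ c, ∀ y, E y a → ∃! z, E z y ∧ E z c

end Pool.Agent.Lib.ZFModel
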