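import Pool.Agent.Lib.ZFModel.Model

/-! Generic models for arbitrary (uncountable) posets.  The countable hull consists of a set of
names, a set `PN` of conditions and a set `AN` of auxiliary objects; it is closed under witnesses
for any prescribed countable family of relations, and the filter meets any prescribed countable
family of dense sets with parameters in the hull. -/

namespace Pool.Agent.Lib.ZFModel
open Name

universe u

/-- A family of relations with parameters: names, conditions and auxiliary objects. -/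
abbrev Fam (P A K : Type) (T : Type u) :=
  K → (ℕ → Name P) → (ℕ → P) → (ℕ → A) → T → Prop

section raw
variable {P A K : Type} [Preorder P] [Countable K]

theorem exists_hull_generic (Q : Name P → Prop) (x0 : Name P) (p0 : P) (a0 : A)
    (RN : Fam P A K (Name P)) (RP : Fam P A K P) (RA : Fam P A K A) (D : Fam P A K P) :
    ∃ (N : Set (Name P)) (PN : Set P) (AN : Set A) (G : P → Prop),
      (∀ x ∈ N, Q x) ∧ p0 ∈ PN ∧ a0 ∈ AN ∧ G p0 ∧ (∀ p q, G p → p ≤ q → G q) ∧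
      (∀ p q, G p → G q → ∃ r, G r ∧ r ≤ p ∧ r ≤ q) ∧ (∀ p, G p → ∃ q ∈ PN, G q ∧ q ≤ p) ∧
      ∀ k (l₁ : List (Name P)) (l₂ : List P) (l₃ : List A),
        (∀ x ∈ l₁, x ∈ N) → (∀ x ∈ l₂, x ∈ PN) → (∀ x ∈ l₃, x ∈ AN) →
        ((∃ x, Q x ∧ RN k (envOf x0 l₁) (envOf p0 l₂) (envOf a0 l₃) x) →
          ∃ x ∈ N, RN k (envOf x0 l₁) (envOf p0 l₂) (envOf a0 l₃) x) ∧
        ((∃ x, RP k (envOf x0 l₁) (envOf p0 l₂) (envOf a0 l₃) x) →
          ∃ x ∈ PN, RP k (envOf x0 l₁) (envOf p0 l₂) (envOf a0 l₃) x) ∧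
        ((∃ x, RA k (envOf x0 l₁) (envOf p0 l₂) (envOf a0 l₃) x) →
          ∃ x ∈ AN, RA k (envOf x0 l₁) (envOf p0 l₂) (envOf a0 l₃) x) ∧
        ∀ p, G p → (∀ q, q ≤ p → ∃ r, r ≤ q ∧ D k (envOf x0 l₁) (envOf p0 l₂) (envOf a0 l₃) r) →
          ∃ q ∈ PN, G q ∧ D k (envOf x0 l₁) (envOf p0 l₂) (envOf a0 l₃) q := by
  let X := Name P ⊕ P ⊕ A
  let f₁ : X → Option (Name P) := fun x => x.getLeft?
  let f₂ : X → Option P := fun x => x.getRight?.bind Sum.getLeft?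
  let f₃ : X → Option A := fun x => x.getRight?.bind Sum.getRight?
  let e₁ : List X → ℕ → Name P := fun l => envOf x0 (l.filterMap f₁)
  let e₂ : List X → ℕ → P := fun l => envOf p0 (l.filterMap f₂)
  let e₃ : List X → ℕ → A := fun l => envOf a0 (l.filterMap f₃)
  let D' : K → List X → P → Prop := fun k l q =>
    D k (e₁ l) (e₂ l) (e₃ l) q ∨ ∀ r, r ≤ q → ¬ D k (e₁ l) (e₂ l) (e₃ l) r
  let Rel : K ⊕ K ⊕ Bool → List X → X → Prop := fun k l x =>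
    match k, x with
    | .inl k, .inl x => RN k (e₁ l) (e₂ l) (e₃ l) x
    | .inl k, .inr (.inl x) => False
    | .inl k, .inr (.inr x) => RA k (e₁ l) (e₂ l) (e₃ l) x
    | .inr (.inl k), .inr (.inl x) => RP k (e₁ l) (e₂ l) (e₃ l) x
    | .inr (.inl _), _ => False
    | .inr (.inr true), x => x = .inr (.inl p0)
    | .inr (.inr false), x => x = .inr (.inr a0)
  let Rel' : ((K ⊕ K ⊕ Bool) × Bool) ⊕ K → List X → X → Prop := fun k l x =>
    match k with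
    | .inl (k, b) => Rel k l x ∧ x.isLeft = b
    | .inr k => ∃ q, x = .inr (.inl q) ∧ q ≤ e₂ l 0 ∧ D' k l.tail q
  obtain ⟨H, hH, hQ, hcl⟩ := exists_hull (X := X) (fun x => ∀ y, x = .inl y → Q y) Rel'
  have hp0 : (Sum.inr (.inl p0) : X) ∈ H := by
    obtain ⟨x, hx, h, _⟩ := hcl (.inl (.inr (.inr true), false)) [] (by simp)
      ⟨.inr (.inl p0), fun _ h => (nomatch h), rfl, rfl⟩
    have h' : x = .inr (.inl p0) := by rcases x with x | x | x <;> exact h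
    exact h' ▸ hx
  have ha0 : (Sum.inr (.inr a0) : X) ∈ H := by
    obtain ⟨x, hx, h, _⟩ := hcl (.inl (.inr (.inr false), false)) [] (by simp)
      ⟨.inr (.inr a0), fun _ h => (nomatch h), rfl, rfl⟩
    have h' : x = .inr (.inr a0) := by rcases x with x | x | x <;> exact h
    exact h' ▸ hx
  have := (countable_lists hH).to_subtype
  let PN : Set P := {p | (Sum.inr (.inl p) : X) ∈ H}
  obtain ⟨G, hG0, hup, hdir, hG⟩ := exists_generic (P := PN)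
    (ι := K × {l : List X | ∀ x ∈ l, x ∈ H}) (fun i q => D' i.1 i.2.1 q.1) (by
      rintro ⟨k, l, hl⟩ ⟨p, hp⟩
      have h1 : ∃ q, q ≤ p ∧ D' k l q := by
        by_cases h : ∃ r, r ≤ p ∧ D k (e₁ l) (e₂ l) (e₃ l) r
        · obtain ⟨r, hr, h⟩ := h; exact ⟨r, hr, Or.inl h⟩
        · exact ⟨p, le_rfl, Or.inr fun r hr h' => h ⟨r, hr, h'⟩⟩
      obtain ⟨q, hq, h1⟩ := h1
      obtain ⟨x, hx, q', rfl, h2, h3⟩ := hcl (.inr k) (.inr (.inl p) :: l)
        (by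
          intro x hx
          rcases List.mem_cons.1 hx with rfl | hx
          · exact hp
          · exact hl x hx)
        ⟨.inr (.inl q), fun _ h => (nomatch h), q, rfl, hq, h1⟩
      exact ⟨⟨q', hx⟩, h2, h3⟩) ⟨p0, hp0⟩
  refine ⟨{x | (Sum.inl x : X) ∈ H}, PN, {a | (Sum.inr (.inr a) : X) ∈ H},
    fun p => ∃ q, G q ∧ q.1 ≤ p, fun x hx => hQ _ hx x rfl, hp0, ha0, ⟨_, hG0, le_rfl⟩,
    fun p q ⟨r, hr, h⟩ h' => ⟨r, hr, h.trans h'⟩, ?_, ?_, ?_⟩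
  · rintro p q ⟨p', hp', h1⟩ ⟨q', hq', h2⟩
    obtain ⟨r, hr, h3, h4⟩ := hdir p' q' hp' hq'
    exact ⟨r.1, ⟨r, hr, le_rfl⟩, le_trans h3 h1, le_trans h4 h2⟩
  · rintro p ⟨q, hq, h⟩
    exact ⟨q.1, q.2, ⟨q, hq, le_rfl⟩, h⟩
  · intro k l₁ l₂ l₃ h₁ h₂ h₃
    let l : List X := l₁.map .inl ++ (l₂.map (fun p => .inr (.inl p)) ++ l₃.map fun a => .inr (.inr a))
    have hl : ∀ x ∈ l, x ∈ H := by
      intro x hx
      simp only [l, List.mem_append, List.mem_map] at hx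
      rcases hx with ⟨y, hy, rfl⟩ | ⟨y, hy, rfl⟩ | ⟨y, hy, rfl⟩
      · exact h₁ y hy
      · exact h₂ y hy
      · exact h₃ y hy
    have e1 : e₁ l = envOf x0 l₁ := by
      simp [e₁, l, f₁, List.filterMap_map]
    have e2 : e₂ l = envOf p0 l₂ := by
      simp [e₂, l, f₂, List.filterMap_map]
    have e3 : e₃ l = envOf a0 l₃ := by
      simp [e₃, l, f₃, List.filterMap_map]
    rw [← e1, ← e2, ← e3]
    refine ⟨?_, ?_, ?_, ?_⟩
    · rintro ⟨x, hx, h⟩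
      obtain ⟨y, hy, h1, h2⟩ := hcl (.inl (.inl k, true)) l hl
        ⟨.inl x, fun _ h => (by cases h; exact hx), h, rfl⟩
      rcases y with y | y
      · exact ⟨y, hy, h1⟩
      · cases h2
    · rintro ⟨x, h⟩
      obtain ⟨y, hy, h1, h2⟩ := hcl (.inl (.inr (.inl k), false)) l hl
        ⟨.inr (.inl x), fun _ h => (nomatch h), h, rfl⟩
      rcases y with y | y | y
      · cases h2
      · exact ⟨y, hy, h1⟩
      · exact h1.elim
    · rintro ⟨x, h⟩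
      obtain ⟨y, hy, h1, h2⟩ := hcl (.inl (.inl k, false)) l hl
        ⟨.inr (.inr x), fun _ h => (nomatch h), h, rfl⟩
      rcases y with y | y | y
      · cases h2
      · exact h1.elim
      · exact ⟨y, hy, h1⟩
    · rintro p ⟨p', hp', hp⟩ hd
      obtain ⟨q, hq, h1⟩ := hG (k, ⟨l, hl⟩)
      obtain ⟨r, hr, h2, h3⟩ := hdir p' q hp' hq
      rcases h1 with h1 | h1
      · exact ⟨q.1, q.2, ⟨q, hq, le_rfl⟩, h1⟩
      · obtain ⟨s, hs, h4⟩ := hd r.1 (le_trans h2 hp)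
        exact absurd h4 (h1 s (le_trans hs h3))

end raw

variable {P : Type} (Γ : Type) [Group Γ] [MulAction Γ P] [Preorder P] [S : SymSys P Γ]

/-- A generic model together with its hull of conditions and auxiliary objects. -/
structure GenX {A K : Type} (p0 : P) (a0 : A) (RN : Fam P A K (Name P)) (RP : Fam P A K P)
    (RA : Fam P A K A) (D : Fam P A K P) extends Gen (P := P) Γ where
  PN : Set P
  AN : Set A
  p0_mem : p0 ∈ PN
  a0_mem : a0 ∈ AN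
  G_p0 : G p0
  below : ∀ p, G p → ∃ q ∈ PN, G q ∧ q ≤ p
  clN : ∀ k (l₁ : List (Name P)) (l₂ : List P) (l₃ : List A),
    (∀ x ∈ l₁, x ∈ N) → (∀ x ∈ l₂, x ∈ PN) → (∀ x ∈ l₃, x ∈ AN) →
    (∃ x, HS Γ x ∧ RN k (envOf emptyName l₁) (envOf p0 l₂) (envOf a0 l₃) x) →
      ∃ x ∈ N, RN k (envOf emptyName l₁) (envOf p0 l₂) (envOf a0 l₃) x
  clP : ∀ k (l₁ : List (Name P)) (l₂ : List P) (l₃ : List A),
    (∀ x ∈ l₁, x ∈ N) → (∀ x ∈ l₂, x ∈ PN) → (∀ x ∈ l₃, x ∈ AN) →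
    (∃ x, RP k (envOf emptyName l₁) (envOf p0 l₂) (envOf a0 l₃) x) →
      ∃ x ∈ PN, RP k (envOf emptyName l₁) (envOf p0 l₂) (envOf a0 l₃) x
  clA : ∀ k (l₁ : List (Name P)) (l₂ : List P) (l₃ : List A),
    (∀ x ∈ l₁, x ∈ N) → (∀ x ∈ l₂, x ∈ PN) → (∀ x ∈ l₃, x ∈ AN) →
    (∃ x, RA k (envOf emptyName l₁) (envOf p0 l₂) (envOf a0 l₃) x) →
      ∃ x ∈ AN, RA k (envOf emptyName l₁) (envOf p0 l₂) (envOf a0 l₃) x
  meet : ∀ k (l₁ : List (Name P)) (l₂ : List P) (l₃ : List A),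
    (∀ x ∈ l₁, x ∈ N) → (∀ x ∈ l₂, x ∈ PN) → (∀ x ∈ l₃, x ∈ AN) →
    ∀ p, G p →
      (∀ q, q ≤ p → ∃ r, r ≤ q ∧ D k (envOf emptyName l₁) (envOf p0 l₂) (envOf a0 l₃) r) →
      ∃ q ∈ PN, G q ∧ D k (envOf emptyName l₁) (envOf p0 l₂) (envOf a0 l₃) q

theorem exists_genX {A K : Type} [Countable K] (p0 : P) (a0 : A) (RN : Fam P A K (Name P))
    (RP : Fam P A K P) (RA : Fam P A K A) (D : Fam P A K P) :
    Nonempty (GenX Γ p0 a0 RN RP RA D) := by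
  let RN' : Fam P A (K ⊕ (Fml ⊕ Fml) ⊕ Bool) (Name P) := fun k v c a x => match k with
    | .inl k => RN k v c a x
    | .inr (.inl (.inl ψ)) => ∀ z, HS Γ z → ∀ p, (MemF z x p ↔ Forces Γ ψ p (cons z v))
    | .inr (.inl (.inr φ)) => ∀ q, q ≤ c 0 → ¬ Forces Γ φ q (cons x v)
    | .inr (.inr true) => ∃ j, x = (v 1).ch j ∧ c 0 ≤ (v 1).cond j ∧ EqF (v 0) x (c 0)
    | .inr (.inr false) => x = emptyName
  let RP' : Fam P A (K ⊕ (Fml ⊕ Fml) ⊕ Bool) P := fun k v c a x => match k with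
    | .inl k => RP k v c a x
    | .inr _ => True
  let RA' : Fam P A (K ⊕ (Fml ⊕ Fml) ⊕ Bool) A := fun k v c a x => match k with
    | .inl k => RA k v c a x
    | .inr _ => True
  let D' : Fam P A (K ⊕ (Fml ⊕ Fml) ⊕ Bool) P := fun k v c a p => match k with
    | .inl k => D k v c a p
    | .inr (.inl (.inl φ)) => Forces Γ φ p v ∨ ∀ q, q ≤ p → ¬ Forces Γ φ q v
    | .inr (.inl (.inr φ)) => Forces Γ (.all φ) p v ∨
        ∃ x, HS Γ x ∧ ∀ q, q ≤ p → ¬ Forces Γ φ q (cons x v)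
    | .inr (.inr _) => (∃ j, p ≤ (v 1).cond j ∧ EqF (v 0) ((v 1).ch j) p) ∨
        ∀ q, q ≤ p → ¬ MemF (v 0) (v 1) q
  obtain ⟨N, PN, AN, G, hs, hp0, ha0, hG0, hup, hdir, hbelow, h⟩ :=
    exists_hull_generic (HS Γ) emptyName p0 a0 RN' RP' RA' D'
  have h0 : emptyName ∈ N := by
    obtain ⟨x, hx, h1⟩ := (h (.inr (.inr false)) [] [] [] (by simp) (by simp) (by simp)).1
      ⟨_, emptyName_hs Γ, rfl⟩
    exact h1 ▸ hx
  have htop : ∀ {D : P → Prop}, (∀ p, ∃ q, q ≤ p ∧ D q) → ∀ q, q ≤ p0 → ∃ r, r ≤ q ∧ D r :=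
    fun h q _ => h q
  refine ⟨⟨⟨N, hs, h0, G, hup, hdir, ?_, ?_, ?_, ?_⟩, PN, AN, hp0, ha0, hG0, hbelow,
    fun k l₁ l₂ l₃ h₁ h₂ h₃ => (h (.inl k) l₁ l₂ l₃ h₁ h₂ h₃).1,
    fun k l₁ l₂ l₃ h₁ h₂ h₃ => (h (.inl k) l₁ l₂ l₃ h₁ h₂ h₃).2.1,
    fun k l₁ l₂ l₃ h₁ h₂ h₃ => (h (.inl k) l₁ l₂ l₃ h₁ h₂ h₃).2.2.1,
    fun k l₁ l₂ l₃ h₁ h₂ h₃ => (h (.inl k) l₁ l₂ l₃ h₁ h₂ h₃).2.2.2⟩⟩
  · intro ψ l hl hc
    exact (h (.inr (.inl (.inl ψ))) l [] [] hl (by simp) (by simp)).1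
      (hc.exists_name fun i => hs _ (envOf_mem h0 l hl i))
  · intro φ l hl
    obtain ⟨q, _, hq, h1⟩ := (h (.inr (.inl (.inl φ))) l [] [] hl (by simp) (by simp)).2.2.2 p0 hG0
      (htop fun p => by
        by_cases h : ∃ q, q ≤ p ∧ Forces Γ φ q (envOf emptyName l)
        · obtain ⟨q, hq, hm⟩ := h
          exact ⟨q, hq, Or.inl hm⟩
        · exact ⟨p, le_rfl, Or.inr fun q hq hm => h ⟨q, hq, hm⟩⟩)
    exact ⟨q, hq, h1⟩
  · intro φ l hl
    obtain ⟨p, hp, hGp, h1 | h1⟩ :=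
      (h (.inr (.inl (.inr φ))) l [] [] hl (by simp) (by simp)).2.2.2 p0 hG0 (htop fun p => by
        by_cases h : Forces Γ (.all φ) p (envOf emptyName l)
        · exact ⟨p, le_rfl, Or.inl h⟩
        · have : ∃ x, HS Γ x ∧ ¬ Forces Γ φ p (cons x (envOf emptyName l)) := by
            by_contra hc
            exact h fun x hx => by_contra fun hn => hc ⟨x, hx, hn⟩
          obtain ⟨x, hx, hn⟩ := this
          have : ∃ q, q ≤ p ∧ ∀ r, r ≤ q → ¬ Forces Γ φ r (cons x (envOf emptyName l)) := by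
            by_contra hc
            refine hn (Forces.reg fun q hq => by_contra fun h2 => hc ⟨q, hq, fun r hr hf => ?_⟩)
            exact h2 ⟨r, hr, hf⟩
          obtain ⟨q, hq, h2⟩ := this
          exact ⟨q, hq, Or.inr ⟨x, hx, h2⟩⟩)
    · exact ⟨p, hGp, Or.inl h1⟩
    · exact ⟨p, hGp, Or.inr ((h (.inr (.inl (.inr φ))) l [p] [] hl (by simpa using hp)
        (by simp)).1 h1)⟩
  · intro x hx y hy
    have hl : ∀ z ∈ [x, y], z ∈ N := by
      intro z hz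
      simp only [List.mem_cons, List.not_mem_nil, or_false] at hz
      rcases hz with rfl | rfl <;> assumption
    obtain ⟨p, hp, hGp, h1 | h1⟩ :=
      (h (.inr (.inr true)) [x, y] [] [] hl (by simp) (by simp)).2.2.2 p0 hG0 (htop fun p => by
        by_cases h : ∃ q, q ≤ p ∧ MemF x y q
        · obtain ⟨q, hq, hm⟩ := h
          obtain ⟨r, hr, hj⟩ := hm q le_rfl
          exact ⟨r, hr.trans hq, Or.inl hj⟩
        · exact ⟨p, le_rfl, Or.inr fun q hq hm => h ⟨q, hq, hm⟩⟩)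
    · obtain ⟨j, h1, h2⟩ := h1
      obtain ⟨z, hz, j', rfl, h3, h4⟩ :=
        (h (.inr (.inr true)) [x, y] [p] [] hl (by simpa using hp) (by simp)).1
          ⟨_, (hs y hy).ch j, j, rfl, h1, h2⟩
      exact ⟨p, hGp, Or.inl ⟨j', hz, h3, h4⟩⟩
    · exact ⟨p, hGp, Or.inr h1⟩

end Pool.Agent.Lib.ZFModel
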