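import Pool.Agent.Lib.ZFModel.Syntax
import Mathlib.Algebra.Group.Subgroup.Lattice
import Mathlib.Algebra.Group.Action.Defs

/-! Names over a forcing poset, the forcing relation for atomic formulas, and hereditarily
symmetric names. -/

namespace Pool.Agent.Lib.ZFModel

/-- Names: a small family of names, each with a condition. -/
inductive Name (P : Type) : Type 1
  | mk (ι : Type) (A : ι → Name P) (c : ι → P) : Name P

namespace Name
variable {P : Type}

def Idx : Name P → Type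
  | mk ι _ _ => ι
def ch : (x : Name P) → x.Idx → Name P
  | mk _ A _ => A
def cond : (x : Name P) → x.Idx → P
  | mk _ _ c => c

@[simp] theorem Idx_mk (ι : Type) (A : ι → Name P) (c : ι → P) : (mk ι A c).Idx = ι := rfl
@[simp] theorem ch_mk (ι : Type) (A : ι → Name P) (c : ι → P) : (mk ι A c).ch = A := rfl
@[simp] theorem cond_mk (ι : Type) (A : ι → Name P) (c : ι → P) : (mk ι A c).cond = c := rfl

theorem child_wf : WellFounded (fun z x : Name P => ∃ i, z = x.ch i) := by
  refine ⟨fun x => ?_⟩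
  induction x with
  | mk ι A c ih =>
    refine ⟨_, ?_⟩
    rintro z ⟨i, rfl⟩
    exact ih i

variable [Preorder P]

def EqF : Name P → Name P → P → Prop
  | mk _ A c, mk _ B d, p =>
    (∀ i q, q ≤ p → q ≤ c i → ∃ r, r ≤ q ∧ ∃ j, r ≤ d j ∧ EqF (A i) (B j) r) ∧
    (∀ j q, q ≤ p → q ≤ d j → ∃ r, r ≤ q ∧ ∃ i, r ≤ c i ∧ EqF (A i) (B j) r)

def MemF (x y : Name P) (p : P) : Prop :=
  ∀ q, q ≤ p → ∃ r, r ≤ q ∧ ∃ j, r ≤ y.cond j ∧ EqF x (y.ch j) r

theorem EqF.mono {x y : Name P} {p q : P} (h : EqF x y p) (hq : q ≤ p) : EqF x y q := by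
  cases x; cases y
  exact ⟨fun i r hr hc => h.1 i r (hr.trans hq) hc, fun i r hr hc => h.2 i r (hr.trans hq) hc⟩

theorem EqF.reg {x y : Name P} {p : P} (h : ∀ q, q ≤ p → ∃ r, r ≤ q ∧ EqF x y r) :
    EqF x y p := by
  cases x; cases y
  constructor
  · intro i q hq hc
    obtain ⟨r, hr, he⟩ := h q hq
    obtain ⟨s, hs, hj⟩ := he.1 i r le_rfl (hr.trans hc)
    exact ⟨s, hs.trans hr, hj⟩
  · intro i q hq hc
    obtain ⟨r, hr, he⟩ := h q hq
    obtain ⟨s, hs, hj⟩ := he.2 i r le_rfl (hr.trans hc)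
    exact ⟨s, hs.trans hr, hj⟩

theorem EqF.refl (x : Name P) : ∀ p, EqF x x p := by
  induction x with
  | mk ι A c ih =>
    intro p
    exact ⟨fun i q _ hc => ⟨q, le_rfl, i, hc, ih i q⟩, fun i q _ hc => ⟨q, le_rfl, i, hc, ih i q⟩⟩

theorem EqF.symm {x : Name P} : ∀ {y : Name P} {p : P}, EqF x y p → EqF y x p := by
  induction x with
  | mk ι A c ih =>
    intro y p h
    cases y with
    | mk κ B d =>
      constructor
      · intro j q hq hd
        obtain ⟨r, hr, i, hi, he⟩ := h.2 j q hq hd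
        exact ⟨r, hr, i, hi, ih i he⟩
      · intro i q hq hc
        obtain ⟨r, hr, j, hj, he⟩ := h.1 i q hq hc
        exact ⟨r, hr, j, hj, ih i he⟩

theorem EqF.trans {x : Name P} : ∀ {y z : Name P} {p : P}, EqF x y p → EqF y z p → EqF x z p := by
  induction x with
  | mk ι A c ih =>
    intro y z p h h'
    cases y with
    | mk κ B d =>
    cases z with
    | mk μ C e =>
      constructor
      · intro i q hq hc
        obtain ⟨r, hr, j, hj, he⟩ := h.1 i q hq hc
        obtain ⟨s, hs, k, hk, he'⟩ := h'.1 j r (hr.trans hq) hj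
        exact ⟨s, hs.trans hr, k, hk, ih i (he.mono hs) he'⟩
      · intro k q hq hc
        obtain ⟨r, hr, j, hj, he⟩ := h'.2 k q hq hc
        obtain ⟨s, hs, i, hi, he'⟩ := h.2 j r (hr.trans hq) hj
        exact ⟨s, hs.trans hr, i, hi, ih i he' (he.mono hs)⟩

theorem MemF.mono {x y : Name P} {p q : P} (h : MemF x y p) (hq : q ≤ p) : MemF x y q :=
  fun r hr => h r (hr.trans hq)

theorem MemF.reg {x y : Name P} {p : P} (h : ∀ q, q ≤ p → ∃ r, r ≤ q ∧ MemF x y r) :
    MemF x y p := by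
  intro q hq
  obtain ⟨r, hr, hm⟩ := h q hq
  obtain ⟨s, hs, hj⟩ := hm r le_rfl
  exact ⟨s, hs.trans hr, hj⟩

theorem memF_ch (x : Name P) (i : x.Idx) {p : P} (hp : p ≤ x.cond i) : MemF (x.ch i) x p :=
  fun q hq => ⟨q, le_rfl, i, hq.trans hp, EqF.refl _ _⟩

theorem eqF_iff {x y : Name P} {p : P} : EqF x y p ↔
    (∀ i q, q ≤ p → q ≤ x.cond i → MemF (x.ch i) y q) ∧
    (∀ j q, q ≤ p → q ≤ y.cond j → MemF (y.ch j) x q) := by
  cases x with
  | mk ι A c =>
  cases y with
  | mk κ B d =>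
    constructor
    · intro h
      constructor
      · intro i q hq hc r hr
        exact h.1 i r (hr.trans hq) (hr.trans hc)
      · intro j q hq hc r hr
        obtain ⟨s, hs, i, hi, he⟩ := h.2 j r (hr.trans hq) (hr.trans hc)
        exact ⟨s, hs, i, hi, he.symm⟩
    · intro h
      constructor
      · intro i q hq hc
        exact h.1 i q hq hc q le_rfl
      · intro j q hq hc
        obtain ⟨s, hs, i, hi, he⟩ := h.2 j q hq hc q le_rfl
        exact ⟨s, hs, i, hi, he.symm⟩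

theorem MemF.congr_left {x x' y : Name P} {p : P} (h : MemF x y p) (he : EqF x x' p) :
    MemF x' y p := by
  intro q hq
  obtain ⟨r, hr, j, hj, h1⟩ := h q hq
  exact ⟨r, hr, j, hj, (he.mono (hr.trans hq)).symm.trans h1⟩

theorem MemF.congr_right {x y y' : Name P} {p : P} (h : MemF x y p) (he : EqF y y' p) :
    MemF x y' p := by
  apply MemF.reg
  intro q hq
  obtain ⟨r, hr, j, hj, h1⟩ := h q hq
  exact ⟨r, hr, ((eqF_iff.1 he).1 j r (hr.trans hq) hj).congr_left h1.symm⟩

end Name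

/-- A symmetric system: a group acting on the poset by order automorphisms, with a normal filter
(base) of subgroups. -/
class SymSys (P Γ : Type) [Preorder P] [Group Γ] [MulAction Γ P] where
  mono : ∀ (g : Γ) (p q : P), p ≤ q → g • p ≤ g • q
  F : Subgroup Γ → Prop
  top_mem : F ⊤
  inf_mem : ∀ H K, F H → F K → ∃ L, F L ∧ L ≤ H ∧ L ≤ K
  conj_mem : ∀ H g, F H → ∃ K, F K ∧ ∀ k ∈ K, g⁻¹ * k * g ∈ H

namespace Name
variable {P Γ : Type} [Group Γ] [MulAction Γ P]

def act (g : Γ) : Name P → Name P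
  | mk ι A c => mk ι (fun i => act g (A i)) (fun i => g • c i)

theorem act_mul (g h : Γ) (x : Name P) : act (g * h) x = act g (act h x) := by
  induction x with
  | mk ι A c ih => simp only [act, ih, mul_smul]

theorem act_one (x : Name P) : act (1 : Γ) x = x := by
  induction x with
  | mk ι A c ih => simp only [act, ih, one_smul]

theorem act_inv_act (g : Γ) (x : Name P) : act g⁻¹ (act g x) = x := by
  rw [← act_mul, inv_mul_cancel, act_one]

theorem act_act_inv (g : Γ) (x : Name P) : act g (act g⁻¹ x) = x := by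
  rw [← act_mul, mul_inv_cancel, act_one]

variable [Preorder P] [S : SymSys P Γ]

theorem le_act {g : Γ} {p q : P} (h : q ≤ g • p) : g⁻¹ • q ≤ p := by
  simpa using S.mono g⁻¹ _ _ h

theorem act_le {g : Γ} {p q : P} (h : q ≤ g⁻¹ • p) : g • q ≤ p := by
  simpa using S.mono g _ _ h

theorem EqF.act (g : Γ) {x : Name P} : ∀ {y : Name P} {p : P}, EqF x y p →
    EqF (act g x) (act g y) (g • p) := by
  induction x with
  | mk ι A c ih =>
    intro y p h
    cases y with
    | mk κ B d =>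
      constructor
      · intro i q hq hc
        obtain ⟨r, hr, j, hj, he⟩ := h.1 i (g⁻¹ • q) (le_act hq) (le_act hc)
        exact ⟨g • r, act_le hr, j, S.mono g _ _ hj, ih i he⟩
      · intro j q hq hc
        obtain ⟨r, hr, i, hi, he⟩ := h.2 j (g⁻¹ • q) (le_act hq) (le_act hc)
        exact ⟨g • r, act_le hr, i, S.mono g _ _ hi, ih i he⟩

theorem MemF.act (g : Γ) {x y : Name P} {p : P} (h : MemF x y p) :
    MemF (act g x) (act g y) (g • p) := by
  cases y with
  | mk κ B d =>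
    intro q hq
    obtain ⟨r, hr, j, hj, he⟩ := h (g⁻¹ • q) (le_act hq)
    exact ⟨g • r, act_le hr, j, S.mono g _ _ hj, he.act g⟩

variable (Γ) in
/-- Symmetric names. -/
def Sym (x : Name P) : Prop := ∃ H, S.F H ∧ ∀ g ∈ H, ∀ p, EqF (act g x) x p

variable (Γ) in
/-- Hereditarily symmetric names. -/
def HS : Name P → Prop
  | mk ι A c => Sym Γ (mk ι A c) ∧ ∀ i, HS (A i)

theorem HS.sym {x : Name P} (h : HS Γ x) : Sym Γ x := by cases x; exact h.1
theorem HS.ch {x : Name P} (h : HS Γ x) (i : x.Idx) : HS Γ (x.ch i) := by cases x; exact h.2 i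
theorem hs_of {x : Name P} (h : Sym Γ x) (h' : ∀ i, HS Γ (x.ch i)) : HS Γ x := by
  cases x; exact ⟨h, h'⟩

theorem Sym.act {x : Name P} (h : Sym Γ x) (g : Γ) : Sym Γ (act g x) := by
  obtain ⟨H, hH, hx⟩ := h
  obtain ⟨K, hK, hk⟩ := S.conj_mem H g hH
  refine ⟨K, hK, fun k hkK p => ?_⟩
  have := (hx _ (hk k hkK) (g⁻¹ • p)).act g
  rwa [← act_mul, smul_inv_smul, ← mul_assoc, ← mul_assoc, mul_inv_cancel, one_mul,
    act_mul] at this

theorem HS.act {x : Name P} (g : Γ) : HS Γ x → HS Γ (act g x) := by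
  induction x with
  | mk ι A c ih => intro h; exact ⟨Sym.act h.1 g, fun i => ih i (h.2 i)⟩

/-- Extensionality for names with hereditarily symmetric children. -/
theorem eqF_of_ext {x y : Name P} {p : P} (hx : ∀ i, HS Γ (x.ch i)) (hy : ∀ i, HS Γ (y.ch i))
    (h : ∀ z, HS Γ z → ∀ q, q ≤ p → (MemF z x q ↔ MemF z y q)) : EqF x y p :=
  eqF_iff.2 ⟨fun i q hq hc => (h _ (hx i) q hq).1 (memF_ch x i hc),
    fun i q hq hc => (h _ (hy i) q hq).2 (memF_ch y i hc)⟩

theorem common_support {v : ℕ → Name P} (n : ℕ) (hv : ∀ i < n, HS Γ (v i)) :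
    ∃ H, S.F H ∧ ∀ g ∈ H, ∀ i < n, ∀ p, EqF (act g (v i)) (v i) p := by
  induction n with
  | zero => exact ⟨⊤, S.top_mem, fun g _ i hi => absurd hi (by omega)⟩
  | succ n ih =>
    obtain ⟨H, hH, h1⟩ := ih (fun i hi => hv i (by omega))
    obtain ⟨K, hK, h2⟩ := (hv n (by omega)).sym
    obtain ⟨L, hL, hLH, hLK⟩ := S.inf_mem H K hH hK
    refine ⟨L, hL, fun g hg i hi p => ?_⟩
    rcases Nat.lt_succ_iff_lt_or_eq.1 hi with h | rfl
    · exact h1 g (hLH hg) i h p
    · exact h2 g (hLK hg) p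

end Name

end Pool.Agent.Lib.ZFModel
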