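import Pool.Agent.Lib.ZFModel.Defs
import Mathlib.Tactic.Common
import Mathlib.Order.Basic
import Mathlib.Order.Nat
import Mathlib.Logic.Encodable.Basic
import Mathlib.Tactic.DeriveCountable

/-! Renaming, bounds on free variables and derived connectives. -/

namespace Pool.Agent.Lib.ZFModel

universe u

deriving instance Countable for Fml

@[simp] theorem cons_zero {α : Type u} (x : α) (v : ℕ → α) : cons x v 0 = x := rfl
@[simp] theorem cons_succ {α : Type u} (x : α) (v : ℕ → α) (n : ℕ) : cons x v (n + 1) = v n := rfl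
@[simp] theorem cons_one {α : Type u} (x : α) (v : ℕ → α) : cons x v 1 = v 0 := rfl
@[simp] theorem cons_two {α : Type u} (x : α) (v : ℕ → α) : cons x v 2 = v 1 := rfl
@[simp] theorem cons_three {α : Type u} (x : α) (v : ℕ → α) : cons x v 3 = v 2 := rfl

theorem comp_cons {α β : Type*} (f : α → β) (x : α) (v : ℕ → α) :
    (fun i => f (cons x v i)) = cons (f x) (fun i => f (v i)) := by
  funext i; cases i <;> rfl

/-- Lifting a renaming under a binder. -/
def lift (f : ℕ → ℕ) : ℕ → ℕ := cons 0 (fun n => f n + 1)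

theorem cons_lift {α : Type u} (x : α) (v : ℕ → α) (f : ℕ → ℕ) :
    (fun i => cons x v (lift f i)) = cons x (fun i => v (f i)) := by
  funext i; cases i <;> rfl

namespace Fml

def rename : (ℕ → ℕ) → Fml → Fml
  | f, .mem i j => .mem (f i) (f j)
  | f, .eq i j => .eq (f i) (f j)
  | _, .fal => .fal
  | f, .imp φ ψ => .imp (rename f φ) (rename f ψ)
  | f, .all φ => .all (rename (lift f) φ)

def bd : Fml → ℕ
  | .mem i j => max i j + 1
  | .eq i j => max i j + 1
  | .fal => 0
  | .imp φ ψ => max (bd φ) (bd ψ)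
  | .all φ => bd φ - 1

def neg (φ : Fml) : Fml := .imp φ .fal
def and (φ ψ : Fml) : Fml := neg (.imp φ (neg ψ))
def ex (φ : Fml) : Fml := neg (.all (neg φ))

end Fml

variable {M : Type u} {E : M → M → Prop}

theorem sat_rename (φ : Fml) : ∀ (f : ℕ → ℕ) (v : ℕ → M),
    Sat E (φ.rename f) v ↔ Sat E φ (fun i => v (f i)) := by
  induction φ with
  | mem i j => intro f v; rfl
  | eq i j => intro f v; rfl
  | fal => intro f v; rfl
  | imp φ ψ ih1 ih2 => intro f v; simp only [Fml.rename, Sat, ih1, ih2]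
  | all φ ih => intro f v; simp only [Fml.rename, Sat, ih, cons_lift]

theorem cons_agree {α β : Type*} {R : α → β → Prop} {n : ℕ} {v : ℕ → α} {w : ℕ → β} {x : α} {y : β}
    (hx : R x y) (h : ∀ i < n - 1, R (v i) (w i)) : ∀ i < n, R (cons x v i) (cons y w i) := by
  intro i hi
  cases i with
  | zero => exact hx
  | succ i => exact h i (by omega)

theorem sat_congr (φ : Fml) : ∀ (v w : ℕ → M), (∀ i < φ.bd, v i = w i) →
    (Sat E φ v ↔ Sat E φ w) := by
  induction φ with
  | mem i j =>
    intro v w h; simp only [Sat]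
    rw [h i (by simp [Fml.bd]; omega), h j (by simp [Fml.bd]; omega)]
  | eq i j =>
    intro v w h; simp only [Sat]
    rw [h i (by simp [Fml.bd]; omega), h j (by simp [Fml.bd]; omega)]
  | fal => intro v w h; rfl
  | imp φ ψ ih1 ih2 =>
    intro v w h; simp only [Sat]
    rw [ih1 v w (fun i hi => h i (by simp [Fml.bd]; omega)),
      ih2 v w (fun i hi => h i (by simp [Fml.bd]; omega))]
  | all φ ih =>
    intro v w h; simp only [Sat]
    exact forall_congr' fun x => ih _ _ (cons_agree (R := Eq) rfl h)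

@[simp] theorem sat_neg (φ : Fml) (v : ℕ → M) : Sat E φ.neg v ↔ ¬ Sat E φ v := Iff.rfl
@[simp] theorem sat_and (φ ψ : Fml) (v : ℕ → M) :
    Sat E (φ.and ψ) v ↔ Sat E φ v ∧ Sat E ψ v := by
  simp only [Fml.and, Fml.neg, Sat]; tauto
@[simp] theorem sat_ex (φ : Fml) (v : ℕ → M) :
    Sat E φ.ex v ↔ ∃ x, Sat E φ (cons x v) := by
  simp only [Fml.ex, Fml.neg, Sat]
  constructor
  · intro h; by_contra hc; exact h fun x hx => hc ⟨x, hx⟩
  · rintro ⟨x, hx⟩ h; exact h x hx

end Pool.Agent.Lib.ZFModel
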