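import Pool.Agent.Lib.ZFModel.Gen2
import Pool.Agent.Lib.ZFModel.DefsZFC
import Pool.Agent.Lib.ZFModel.Dfn
import Mathlib.Algebra.Group.PUnit
import Mathlib.SetTheory.Cardinal.Order

/-! Full generic extensions (trivial group): models of ZFC from an arbitrary poset. -/

namespace Pool.Agent.Lib.ZFModel
open Name

variable {P : Type}

instance trivAction : MulAction Unit P where
  smul _ p := p
  one_smul _ := rfl
  mul_smul _ _ _ := rfl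

variable [Preorder P]

instance trivSym : SymSys P Unit where
  mono _ _ _ h := h
  F _ := True
  top_mem := trivial
  inf_mem H K _ _ := ⟨H ⊓ K, trivial, inf_le_left, inf_le_right⟩
  conj_mem H _ _ := ⟨H, trivial, fun _ hk => hk⟩

theorem hs_triv (x : Name P) : HS Unit x := by
  induction x with
  | mk ι A c ih =>
    refine ⟨⟨⊤, trivial, fun g _ p => ?_⟩, ih⟩
    have : act g (Name.mk ι A c) = Name.mk ι A c := act_one _
    rw [this]; exact EqF.refl _ _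

omit [Preorder P] in
/-- The name with children `A i` under the conditions `p` with `R i p`. -/
def rName {ι : Type} (A : ι → Name P) (R : ι → P → Prop) : Name P :=
  Name.mk {a : ι × P // R a.1 a.2} (fun a => A a.1.1) (fun a => a.1.2)

omit [Preorder P] in
def natN (n : ℕ) : Name P := rName (fun i : Fin n => natN i) fun _ _ => True
decreasing_by exact i.2

omit [Preorder P] in
theorem natN_eq (n : ℕ) : (natN n : Name P) = rName (fun i : Fin n => natN i) fun _ _ => True := by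
  rw [natN]

omit [Preorder P] in
def omegaN : Name P := rName natN fun _ _ => True
omit [Preorder P] in
def upairN (a b : Name P) : Name P := rName (fun β : Bool => cond β a b) fun _ _ => True
omit [Preorder P] in
def pairN (a b : Name P) : Name P := upairN (upairN a a) (upairN a b)

theorem Gen.E_rName (g : Gen (P := P) Unit) {ι : Type} {A : ι → Name P} {R : ι → P → Prop}
    (h : rName A R ∈ g.N) (a : g.M) : g.E a (g.cl ⟨_, h⟩) ↔
      ∃ i p, R i p ∧ g.G p ∧ ∃ hi : A i ∈ g.N, a = g.cl ⟨_, hi⟩ := by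
  rw [g.E_cl_child]
  exact ⟨fun ⟨j, hj, h1, h2⟩ => ⟨j.1.1, j.1.2, j.2, h1, hj, h2⟩,
    fun ⟨i, p, h1, h2, hi, h3⟩ => ⟨⟨(i, p), h1⟩, hi, h2, h3⟩⟩

omit [Preorder P] in
/-- Grandchildren of a name. -/
def gch (a : Name P) (k : Σ i : a.Idx, (a.ch i).Idx) : Name P := (a.ch k.1).ch k.2

def MinIn (a : Name P) (k : Σ i : a.Idx, (a.ch i).Idx) (y : Name P) (q : P) : Prop :=
  MemF (gch a k) y q ∧ ∀ k', WellOrderingRel k' k → ∀ r, r ≤ q → ¬ MemF (gch a k') y r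

def choiceN (a : Name P) : Name P :=
  rName (gch a) fun k q => ∃ i, q ≤ a.cond i ∧ MinIn a k (a.ch i) q

theorem MinIn.mono {a y : Name P} {k} {q r : P} (h : MinIn a k y q) (hr : r ≤ q) : MinIn a k y r :=
  ⟨h.1.mono hr, fun k' hk s hs => h.2 k' hk s (hs.trans hr)⟩

/-- A generic model of ZFC with a hull closed under `RN`, generic for the sets
`{q | ∃ j, W k v c a q j}` with witnesses `j` in the hull. -/
structure GenW {A K : Type} (p0 : P) (a0 : A) (RN : Fam P A K (Name P))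
    (W : Fam P A K (P × A)) extends Gen (P := P) Unit where
  PN : Set P
  AN : Set A
  p0_mem : p0 ∈ PN
  a0_mem : a0 ∈ AN
  G_p0 : G p0
  below : ∀ p, G p → ∃ q ∈ PN, G q ∧ q ≤ p
  clN : ∀ k (l₁ : List (Name P)) (l₂ : List P) (l₃ : List A),
    (∀ x ∈ l₁, x ∈ N) → (∀ x ∈ l₂, x ∈ PN) → (∀ x ∈ l₃, x ∈ AN) →
    (∃ x, RN k (envOf emptyName l₁) (envOf p0 l₂) (envOf a0 l₃) x) →
      ∃ x ∈ N, RN k (envOf emptyName l₁) (envOf p0 l₂) (envOf a0 l₃) x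
  meet : ∀ k (l₁ : List (Name P)) (l₂ : List P) (l₃ : List A),
    (∀ x ∈ l₁, x ∈ N) → (∀ x ∈ l₂, x ∈ PN) → (∀ x ∈ l₃, x ∈ AN) →
    ∀ p, G p → (∀ q, q ≤ p → ∃ r, r ≤ q ∧ ∃ j,
        W k (envOf emptyName l₁) (envOf p0 l₂) (envOf a0 l₃) (r, j)) →
      ∃ q ∈ PN, G q ∧ ∃ j ∈ AN, W k (envOf emptyName l₁) (envOf p0 l₂) (envOf a0 l₃) (q, j)
  nat_mem : ∀ n, natN n ∈ N
  omega_mem : omegaN ∈ N
  upair_mem : ∀ a ∈ N, ∀ b ∈ N, upairN a b ∈ N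
  zfc : IsZFC toGen.E

section
variable (g : Gen (P := P) Unit) (hn : ∀ n, natN n ∈ g.N)

theorem Gen.mem_nat (x : g.M) (n : ℕ) :
    g.E x (g.cl ⟨_, hn n⟩) ↔ ∃ m < n, x = g.cl ⟨_, hn m⟩ := by
  have h1 : rName (fun i : Fin n => natN i) (fun _ _ => True) ∈ g.N := natN_eq (P := P) n ▸ hn n
  have h2 : g.cl ⟨_, hn n⟩ = g.cl ⟨_, h1⟩ := congrArg g.cl (Subtype.ext (natN_eq n))
  obtain ⟨p, hp⟩ := g.ne
  rw [h2, g.E_rName]
  exact ⟨fun ⟨j, _, _, _, _, h⟩ => ⟨j, j.2, h⟩, fun ⟨m, hm, h⟩ => ⟨⟨m, hm⟩, p, trivial, hp, _, h⟩⟩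

theorem Gen.mem_omega (hw : omegaN ∈ g.N) (x : g.M) :
    g.E x (g.cl ⟨_, hw⟩) ↔ ∃ n, x = g.cl ⟨_, hn n⟩ := by
  obtain ⟨p, hp⟩ := g.ne
  refine (g.E_rName hw x).trans ?_
  exact ⟨fun ⟨j, _, _, _, _, h⟩ => ⟨j, h⟩, fun ⟨m, h⟩ => ⟨m, p, trivial, hp, _, h⟩⟩

theorem Gen.mem_upair {a b : Name P} (ha : a ∈ g.N) (hb : b ∈ g.N) (h : upairN a b ∈ g.N)
    (x : g.M) : g.E x (g.cl ⟨_, h⟩) ↔ x = g.cl ⟨_, ha⟩ ∨ x = g.cl ⟨_, hb⟩ := by
  obtain ⟨p, hp⟩ := g.ne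
  refine (g.E_rName h x).trans ⟨?_, ?_⟩
  · rintro ⟨_ | _, _, _, _, _, h⟩
    · exact Or.inr h
    · exact Or.inl h
  · rintro (h | h)
    · exact ⟨true, p, trivial, hp, ha, h⟩
    · exact ⟨false, p, trivial, hp, hb, h⟩

include hn in
theorem Gen.isZF_of_nat (hw : omegaN ∈ g.N) : IsZF g.E := by
  refine g.isZF ⟨g.cl ⟨_, hw⟩, ⟨_, (g.mem_omega hn hw _).2 ⟨0, rfl⟩, fun x hx => ?_⟩,
    fun x hx => ?_⟩
  · obtain ⟨m, hm, _⟩ := (g.mem_nat hn _ _).1 hx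
    omega
  · obtain ⟨n, rfl⟩ := (g.mem_omega hn hw _).1 hx
    refine ⟨_, (g.mem_omega hn hw _).2 ⟨n + 1, rfl⟩, fun z => ?_⟩
    rw [g.mem_nat hn, g.mem_nat hn]
    constructor
    · rintro ⟨m, hm, rfl⟩
      rcases Nat.lt_succ_iff_lt_or_eq.1 hm with h | rfl
      · exact Or.inl ⟨m, h, rfl⟩
      · exact Or.inr rfl
    · rintro (⟨m, hm, rfl⟩ | rfl)
      · exact ⟨m, by omega, rfl⟩
      · exact ⟨n, by omega, rfl⟩

end

theorem mem_list₁ {α : Type*} {s : Set α} {a : α} (ha : a ∈ s) : ∀ x ∈ [a], x ∈ s := by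
  simpa using ha
theorem mem_list₂ {α : Type*} {s : Set α} {a b : α} (ha : a ∈ s) (hb : b ∈ s) :
    ∀ x ∈ [a, b], x ∈ s := by simp [ha, hb]
theorem mem_list₀ {α : Type*} {s : Set α} : ∀ x ∈ ([] : List α), x ∈ s := by simp
theorem mem_listc {α : Type*} {s : Set α} {a : α} {l : List α} (ha : a ∈ s)
    (hl : ∀ x ∈ l, x ∈ s) : ∀ x ∈ a :: l, x ∈ s := by
  intro x hx
  rcases List.mem_cons.1 hx with rfl | hx
  · exact ha
  · exact hl x hx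

theorem exists_genW {A K : Type} [Countable K] (p0 : P) (a0 : A) (RN : Fam P A K (Name P))
    (W : Fam P A K (P × A)) : Nonempty (GenW p0 a0 RN W) := by
  let RN' : Fam P A (K ⊕ ℕ) (Name P) := fun k v c a x => match k with
    | .inl k => RN k v c a x
    | .inr 0 => x = omegaN
    | .inr 1 => x = upairN (v 0) (v 1)
    | .inr 2 => x = choiceN (v 0)
    | .inr 3 => ∃ k, x = gch (v 0) k ∧ MinIn (v 0) k (v 1) (c 0)
    | .inr 4 => ∃ k i, v 1 = gch (v 0) k ∧ x = (v 0).ch i ∧ c 0 ≤ (v 0).cond i ∧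
        MinIn (v 0) k x (c 0)
    | .inr (n + 5) => x = natN n
  let RA : Fam P A (K ⊕ ℕ) A := fun k v c a x => match k with
    | .inl k => W k v (fun i => c (i + 1)) a (c 0, x)
    | .inr _ => True
  let D : Fam P A (K ⊕ ℕ) P := fun k v c a q => match k with
    | .inl k => ∃ j, W k v c a (q, j)
    | .inr _ => (∀ r, r ≤ q → ∀ k, ¬ MemF (gch (v 0) k) (v 1) r) ∨ ∃ k, MinIn (v 0) k (v 1) q
  obtain ⟨g⟩ := exists_genX Unit p0 a0 RN' (fun _ _ _ _ _ => True) RA D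
  have hn : ∀ n, natN n ∈ g.N := fun n => by
    obtain ⟨x, hx, h⟩ := g.clN (.inr (n + 5)) [] [] [] mem_list₀ mem_list₀ mem_list₀
      ⟨_, hs_triv _, rfl⟩
    exact h ▸ hx
  have hw : omegaN ∈ g.N := by
    obtain ⟨x, hx, h⟩ := g.clN (.inr 0) [] [] [] mem_list₀ mem_list₀ mem_list₀ ⟨_, hs_triv _, rfl⟩
    exact h ▸ hx
  refine ⟨⟨g.toGen, g.PN, g.AN, g.p0_mem, g.a0_mem, g.G_p0, g.below,
    fun k l₁ l₂ l₃ h₁ h₂ h₃ ⟨x, hx⟩ => g.clN (.inl k) l₁ l₂ l₃ h₁ h₂ h₃ ⟨x, hs_triv x, hx⟩,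
    fun k l₁ l₂ l₃ h₁ h₂ h₃ p hp hd => ?_, hn, hw, fun a ha b hb => ?_,
    g.toGen.isZF_of_nat hn hw, fun a hne hdis => ?_⟩⟩
  · obtain ⟨q, hq, hGq, h⟩ := g.meet (.inl k) l₁ l₂ l₃ h₁ h₂ h₃ p hp hd
    exact ⟨q, hq, hGq, g.clA (.inl k) l₁ (q :: l₂) l₃ h₁ (mem_listc hq h₂) h₃ h⟩
  · obtain ⟨x, hx, h⟩ := g.clN (.inr 1) [a, b] [] [] (mem_list₂ ha hb) mem_list₀ mem_list₀
      ⟨_, hs_triv _, rfl⟩
    exact h ▸ hx
  · obtain ⟨⟨a, ha⟩, rfl⟩ := g.toGen.cl_surj a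
    have hc : choiceN a ∈ g.N := by
      obtain ⟨x, hx, h⟩ := g.clN (.inr 2) [a] [] [] (mem_list₁ ha) mem_list₀ mem_list₀
        ⟨_, hs_triv _, rfl⟩
      exact h ▸ hx
    refine ⟨g.toGen.cl ⟨_, hc⟩, fun y hy => ?_⟩
    have key : ∀ z, g.toGen.E z y → g.toGen.E z (g.toGen.cl ⟨_, hc⟩) →
        ∃ k, ∃ hk : gch a k ∈ g.N, z = g.toGen.cl ⟨_, hk⟩ ∧ ∃ y', ∃ hy' : y' ∈ g.N,
          y = g.toGen.cl ⟨_, hy'⟩ ∧ ∃ q, g.G q ∧ MinIn a k y' q := by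
      intro z hz hzc
      obtain ⟨k, q, ⟨i, h1, h2⟩, hq, hk, rfl⟩ := (g.toGen.E_rName hc z).1 hzc
      obtain ⟨r, hr, hGr, hrq⟩ := g.below q hq
      obtain ⟨y', hy', k', i', h3, rfl, h4, h5⟩ := g.clN (.inr 4) [a, gch a k] [r] []
        (mem_list₂ ha hk) (mem_list₁ hr) mem_list₀
        ⟨_, hs_triv _, k, i, rfl, rfl, hrq.trans h1, h2.mono hrq⟩
      have h3' : gch a k = gch a k' := h3
      refine ⟨k', h3' ▸ hk, congrArg _ (Subtype.ext h3'), _, hy', ?_, r, hGr, h5⟩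
      refine hdis _ _ _ hy (g.toGen.E_cl.2 ⟨r, hGr, memF_ch a i' h4⟩) hz
        (g.toGen.E_cl.2 ⟨r, hGr, ?_⟩)
      show MemF (gch a k) _ _
      rw [h3']; exact h5.1
    refine existsUnique_of_exists_of_unique ?_ ?_
    · obtain ⟨i, hi, hGi, rfl⟩ := g.toGen.E_cl_child.1 hy
      obtain ⟨q, hq, hGq, h | h⟩ := g.meet (.inr 0) [a, a.ch i] [] [] (mem_list₂ ha hi) mem_list₀
        mem_list₀ p0 g.G_p0 (fun q _ => by
          by_cases h : ∃ k r, r ≤ q ∧ MemF (gch a k) (a.ch i) r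
          · obtain ⟨k, ⟨r, hr, hk⟩, hmin⟩ := (WellOrderingRel.isWellOrder.wf).has_min
              {k | ∃ r, r ≤ q ∧ MemF (gch a k) (a.ch i) r} h
            exact ⟨r, hr, Or.inr ⟨k, hk, fun k' hk' s hs hm => hmin k' ⟨s, hs.trans hr, hm⟩ hk'⟩⟩
          · exact ⟨q, le_rfl, Or.inl fun r hr k hk => h ⟨k, r, hr, hk⟩⟩)
      · obtain ⟨z, hz⟩ := hne _ hy
        obtain ⟨j, _, hGj, _⟩ := g.toGen.E_cl_child.1 hz
        obtain ⟨r, _, h1, h2⟩ := g.dir _ _ hGq hGj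
        exact absurd (memF_ch (a.ch i) j h2) (h r h1 ⟨i, j⟩)
      · obtain ⟨z, hz, k, rfl, hk⟩ := g.clN (.inr 3) [a, a.ch i] [q] [] (mem_list₂ ha hi)
          (mem_list₁ hq) mem_list₀ (by obtain ⟨k, hk⟩ := h; exact ⟨_, hs_triv _, k, rfl, hk⟩)
        obtain ⟨r, hr, h1, h2⟩ := g.dir _ _ hGq hGi
        exact ⟨g.toGen.cl ⟨_, hz⟩, g.toGen.E_cl.2 ⟨q, hGq, hk.1⟩,
          (g.toGen.E_rName hc _).2 ⟨k, r, ⟨i, h2, MinIn.mono hk h1⟩, hr, hz, rfl⟩⟩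
    · rintro z z' ⟨h1, h2⟩ ⟨h3, h4⟩
      obtain ⟨k, hk, rfl, y1, hy1, e1, q1, hq1, m1⟩ := key z h1 h2
      obtain ⟨k', hk', rfl, y2, hy2, e2, q2, hq2, m2⟩ := key z' h3 h4
      rcases trichotomous_of WellOrderingRel k k' with h | rfl | h
      · obtain ⟨r, hr, h5⟩ := g.toGen.E_cl.1 (e2 ▸ h1)
        obtain ⟨s, _, h6, h7⟩ := g.dir _ _ hr hq2
        exact absurd (h5.mono h6) (m2.2 k h s h7)
      · rfl
      · obtain ⟨r, hr, h5⟩ := g.toGen.E_cl.1 (e1 ▸ h3)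
        obtain ⟨s, _, h6, h7⟩ := g.dir _ _ hr hq1
        exact absurd (h5.mono h6) (m1.2 k' h s h7)

theorem Dfn.three {M : Type 1} {E : M → M → Prop} (R : M → M → M → Prop)
    [h : Dfn E (fun v => R (v 0) (v 1) (v 2))] :
    ∃ (φ : Fml) (c : ℕ → M), ∀ x y z, R x y z ↔ Sat E φ (cons x (cons y (cons z c))) := by
  obtain ⟨φ, c, h⟩ := h.out
  refine ⟨φ.rename (rn (cons 0 (cons 1 fun _ => 2)) fun n => n + 3), c, fun x y z => ?_⟩
  rw [sat_rename, comp_rn]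
  exact h fun n => cons x (cons y (cons z c)) (cons 0 (cons 1 fun _ => 2) n)

/-- Truth lemma for a definable ternary relation. -/
theorem Gen.truth3 (g : Gen (P := P) Unit) (R : g.M → g.M → g.M → Prop)
    [Dfn g.E (fun v => R (v 0) (v 1) (v 2))] :
    ∃ (φ : Fml) (l : List (Name P)), (∀ x ∈ l, x ∈ g.N) ∧ ∀ x y z : g.N,
      R (g.cl x) (g.cl y) (g.cl z) ↔
        ∃ p, g.G p ∧ Forces Unit φ p (cons x.1 (cons y.1 (cons z.1 (envOf emptyName l)))) := by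
  obtain ⟨φ, c, hφ⟩ := Dfn.three (E := g.E) R
  choose c' hc' using fun i => g.cl_surj (c i)
  obtain ⟨l, _, hl⟩ := exists_envOf g.e0 φ.bd c'
  refine ⟨φ, l.map Subtype.val, g.map_val_mem l, fun x y z => ?_⟩
  have := g.truth φ (cons x (cons y (cons z (envOf g.e0 l))))
  rw [comp_cons g.cl, comp_cons g.cl, comp_cons g.cl, comp_cons Subtype.val,
    comp_cons Subtype.val, comp_cons Subtype.val, g.val_envOf] at this
  rw [hφ, ← this]
  refine sat_congr φ _ _ (cons_agree (R := Eq) rfl (cons_agree (R := Eq) rfl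
    (cons_agree (R := Eq) rfl fun i hi => ?_)))
  rw [hl i (by omega), hc']

end Pool.Agent.Lib.ZFModel
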